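import Pool.Agent.H91.Tal.R2Def

/-!
The polynomial inequality behind module M6R2, checked by the kernel on three `e`-intervals.
-/

set_option autoImplicit false

namespace Pool.Agent.H91.PC

set_option maxRecDepth 100000 in
theorem chkA : (QQ QP.con (eV 0 15) qV LV).chk = true := by decide +kernel
set_option maxRecDepth 100000 in
theorem chkB : (QQ QP.con (eV 15 23) qV LV).chk = true := by decide +kernel
set_option maxRecDepth 100000 in
theorem chkC : (QQ QP.con (eV 38 28) qV LV).chk = true := by decide +kernel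

theorem QQ_ev (s y x : ℝ) (e q L : QP) :
    (QQ QP.con e q L).ev s y x = QQ conR (e.ev s y x) (q.ev s y x) (L.ev s y x) := by
  simp only [QQ, QP0, YP, phlP, pllP, lamP, VP, UP, b1P, rlP, ylP, Tt, Ft, Gt, QP.ev_add, QP.ev_sub,
    QP.ev_mul, QP.ev_con, conR]

theorem QQ_nonneg_aux (E0 H : Int) (hH : 0 < H) (h : (QQ QP.con (eV E0 H) qV LV).chk = true)
    (e q L : ℝ) (he0 : (E0 : ℝ) / 100 ≤ e) (he1 : e ≤ ((E0 : ℝ) + H) / 100) (hq0 : 0 ≤ q)
    (hq1 : q ≤ 1 / 20) (hL : 2995 / 1000 ≤ L) : 0 ≤ QQ conR e q L := by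
  have hH' : (0:ℝ) < H := by exact_mod_cast hH
  have hy0 : 0 ≤ (100 * e - E0) / H := by apply div_nonneg _ hH'.le; linarith
  have hy1 : (100 * e - E0) / H ≤ 1 := by rw [div_le_one hH']; linarith
  have h1 := QP.chk_spec h (s := 1000 * L - 2995) (y := (100 * e - E0) / H) (x := 20 * q)
    (by linarith) hy0 hy1 (by linarith) (by linarith)
  rw [QQ_ev] at h1
  have e1 : (eV E0 H).ev (1000 * L - 2995) ((100 * e - E0) / H) (20 * q) = e := by
    simp only [eV, QP.ev, ev3, ev2, ev1, lev]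
    field_simp
    ring
  have e2 : qV.ev (1000 * L - 2995) ((100 * e - E0) / H) (20 * q) = q := by
    simp only [qV, QP.ev, ev3, ev2, ev1, lev]
    push_cast
    ring
  have e3 : LV.ev (1000 * L - 2995) ((100 * e - E0) / H) (20 * q) = L := by
    simp only [LV, QP.ev, ev3, ev2, ev1, lev]
    push_cast
    ring
  rwa [e1, e2, e3] at h1

theorem QQ_nonneg (e q L : ℝ) (he0 : 0 ≤ e) (he1 : e ≤ 66 / 100) (hq0 : 0 ≤ q)
    (hq1 : q ≤ 1 / 20) (hL : 2995 / 1000 ≤ L) : 0 ≤ QQ conR e q L := by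
  rcases le_total e (15 / 100) with h | h
  · exact QQ_nonneg_aux 0 15 (by norm_num) chkA e q L (by norm_num; linarith) (by norm_num; linarith)
      hq0 hq1 hL
  rcases le_total e (38 / 100) with h' | h'
  · exact QQ_nonneg_aux 15 23 (by norm_num) chkB e q L (by norm_num; linarith)
      (by norm_num; linarith) hq0 hq1 hL
  · exact QQ_nonneg_aux 38 28 (by norm_num) chkC e q L (by norm_num; linarith)
      (by norm_num; linarith) hq0 hq1 hL

end Pool.Agent.H91.PC
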