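import Pool.Agent.H91.Tal.R2Aux
import Pool.Agent.H91.Tal.R2Num

/-!
Module M6R2 of the Talagrand project: `IneqII e t` for `e ≤ 66/100`, `t ≥ 9/10`.
-/

set_option autoImplicit false

namespace Pool.Agent.H58.Tal

open Pool.Agent.H91.PC

namespace R2

/-- reduction of `IneqII` -/
theorem ineqII_of (e q : ℝ) (h0 : 0 < q) (h1 : q < 1)
    (h : 0 ≤ uu e (1 - 2 * q) * (1 - q) * ((Real.log 2 - Gam e (1 - 2 * q)) / q - -Real.log (1 - q) / q) +
        vv e (1 - 2 * q) * (-Real.log q - (Real.log 2 - Gam e (1 - 2 * q))) +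
        (1 - 2 * q) * ((Real.log 2 - Gam e (1 - 2 * q)) / q - -Real.log q -
          (1 - q) * -Real.log (1 - q) / q)) :
    IneqII e (1 - 2 * q) := by
  unfold IneqII Dn
  have e1 : Real.log (1 + (1 - 2 * q)) = Real.log 2 + Real.log (1 - q) := by
    rw [show 1 + (1 - 2 * q) = 2 * (1 - q) by ring, Real.log_mul (by norm_num) (by linarith)]
  have e2 : Real.log (1 - (1 - 2 * q)) = Real.log 2 + Real.log q := by
    rw [show 1 - (1 - 2 * q) = 2 * q by ring, Real.log_mul (by norm_num) (by linarith)]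
  rw [e1, e2]
  rw [← sub_nonneg]
  have key : (1 - (1 - 2 * q) ^ 2) * ((Real.log 2 + Real.log (1 - q) - (Real.log 2 + Real.log q)) / 2) *
        (uu e (1 - 2 * q) + vv e (1 - 2 * q)) -
      (Gam e (1 - 2 * q) - ((1 + (1 - 2 * q)) * (Real.log 2 + Real.log (1 - q)) +
        (1 - (1 - 2 * q)) * (Real.log 2 + Real.log q)) / 2) *
        (2 * (1 - 2 * q) + (1 + (1 - 2 * q)) * uu e (1 - 2 * q) - (1 - (1 - 2 * q)) * vv e (1 - 2 * q)) =
      2 * q * (uu e (1 - 2 * q) * (1 - q) * ((Real.log 2 - Gam e (1 - 2 * q)) / q - -Real.log (1 - q) / q) +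
        vv e (1 - 2 * q) * (-Real.log q - (Real.log 2 - Gam e (1 - 2 * q))) +
        (1 - 2 * q) * ((Real.log 2 - Gam e (1 - 2 * q)) / q - -Real.log q -
          (1 - q) * -Real.log (1 - q) / q)) := by
    field_simp
    ring
  rw [key]
  positivity

/-- `ln 2 - Γ = (β/e) (p (1 - p^e) + q (1 - q^e))` -/
theorem tau_sub_Gam (e q : ℝ) (he : 0 < e) (h0 : 0 < q) (h1 : q < 1) :
    Real.log 2 - Gam e (1 - 2 * q) = (Bb e + Real.log 2 * e) / e *
      ((1 - q) * (1 - Real.exp (-(e * -Real.log (1 - q)))) + q * (1 - Real.exp (-(e * -Real.log q)))) := by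
  have hp : 0 < 1 - q := by linarith
  have e1 : (1 + (1 - 2 * q)) ^ (1 + e) = 2 * 2 ^ e * ((1 - q) * Real.exp (-(e * -Real.log (1 - q)))) := by
    rw [show 1 + (1 - 2 * q) = 2 * (1 - q) by ring, Real.mul_rpow (by norm_num) hp.le,
      Real.rpow_add (by norm_num) 1 e, Real.rpow_add hp 1 e, Real.rpow_one, Real.rpow_one,
      Real.rpow_def_of_pos hp e]
    congr 3
    ring
  have e2 : (1 - (1 - 2 * q)) ^ (1 + e) = 2 * 2 ^ e * (q * Real.exp (-(e * -Real.log q))) := by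
    rw [show 1 - (1 - 2 * q) = 2 * q by ring, Real.mul_rpow (by norm_num) h0.le,
      Real.rpow_add (by norm_num) 1 e, Real.rpow_add h0 1 e, Real.rpow_one, Real.rpow_one,
      Real.rpow_def_of_pos h0 e]
    congr 3
    ring
  have h2 : (1:ℝ) < 2 ^ e := Real.one_lt_rpow (by norm_num) he
  have h3 : (2:ℝ) ^ e - 1 ≠ 0 := by linarith
  unfold Gam Nv Bb
  rw [e1, e2]
  field_simp
  ring


theorem assemble (e q L lam pl Y u v U V T F G b1 lamU pll phl lu : ℝ) (he : 0 < e) (hT : 0 < T)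
    (hTF : T - F = e * L * G) (hu : e * U ≤ u) (hv : e * V ≤ v) (hYlam : lam ≤ Y) (hLq : q * Y ≤ L)
    (hlam : lam ≤ lamU) (hU : 0 ≤ U) (hp : 0 < 1 - q) (ht : 0 ≤ 1 - 2 * q)
    (hUV : 0 ≤ U * (1 - q) - q * V) (hphl : phl = 1 - e * lu / 2) (hphl0 : 0 ≤ phl) (hb1 : 0 ≤ b1)
    (hb : 0 ≤ b1 * phl - lu / 2) (hY : (1 + e * b1) * (pl * phl + L * F / T) ≤ Y) (hpl : pll ≤ pl)
    (hQ : 0 ≤ U * (1 - q) * ((1 + e * b1) * (pll * phl * T + L * F) - lamU * T) +
      V * (L * T - q * ((1 + e * b1) * (pll * phl * T + L * F))) +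
      (1 - 2 * q) * (pll * (b1 * phl - lu / 2) * T + L * b1 * F - L * L * G)) :
    0 ≤ u * (1 - q) * (Y - lam) + v * (L - q * Y) + (1 - 2 * q) * (Y - L - pl) := by
  have s1 : e * U * (1 - q) * (Y - lamU) ≤ u * (1 - q) * (Y - lam) := by
    have a1 : e * U * (1 - q) * (Y - lam) ≤ u * (1 - q) * (Y - lam) := by
      apply mul_le_mul_of_nonneg_right _ (by linarith only [hYlam])
      apply mul_le_mul_of_nonneg_right hu hp.le
    have a2 : e * U * (1 - q) * (Y - lamU) ≤ e * U * (1 - q) * (Y - lam) := by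
      apply mul_le_mul_of_nonneg_left _ (mul_nonneg (mul_nonneg he.le hU) hp.le)
      linarith only [hlam]
    linarith only [a1, a2]
  have s2 : e * V * (L - q * Y) ≤ v * (L - q * Y) := mul_le_mul_of_nonneg_right hv (by linarith only [hLq])
  set Y1 := (1 + e * b1) * (pl * phl + L * F / T) with hY1
  set Y2 := (1 + e * b1) * (pll * phl + L * F / T) with hY2
  have s3 : 0 ≤ (Y - Y1) * (e * (U * (1 - q) - q * V) + (1 - 2 * q)) := by
    apply mul_nonneg (by linarith only [hY])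
    have := mul_nonneg he.le hUV
    exact add_nonneg this ht
  have s4 : 0 ≤ (pl - pll) * (e * (U * (1 - q) - q * V) * ((1 + e * b1) * phl) +
      (1 - 2 * q) * (e * (b1 * phl - lu / 2))) := by
    apply mul_nonneg (by linarith only [hpl])
    have h1 : 0 ≤ (1 + e * b1) * phl :=
      mul_nonneg (add_nonneg zero_le_one (mul_nonneg he.le hb1)) hphl0
    have h2 := mul_nonneg (mul_nonneg he.le hUV) h1
    have h3 := mul_nonneg ht (mul_nonneg he.le hb)
    exact add_nonneg h2 h3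
  have s5 : 0 ≤ e * (U * (1 - q) * (Y2 - lamU) + V * (L - q * Y2)) + (1 - 2 * q) * (Y2 - L - pll) := by
    have key : (e * (U * (1 - q) * (Y2 - lamU) + V * (L - q * Y2)) + (1 - 2 * q) * (Y2 - L - pll)) * T =
        e * (U * (1 - q) * ((1 + e * b1) * (pll * phl * T + L * F) - lamU * T) +
      V * (L * T - q * ((1 + e * b1) * (pll * phl * T + L * F))) +
      (1 - 2 * q) * (pll * (b1 * phl - lu / 2) * T + L * b1 * F - L * L * G)) := by
      have hF : F = T - e * L * G := by linarith only [hTF]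
      have e1 : Y2 * T = (1 + e * b1) * (pll * phl * T + L * F) := by
        rw [hY2]; field_simp
      have e2 : (e * (U * (1 - q) * (Y2 - lamU) + V * (L - q * Y2)) + (1 - 2 * q) * (Y2 - L - pll)) * T =
        e * (U * (1 - q) * (Y2 * T - lamU * T) + V * (L * T - q * (Y2 * T))) +
          (1 - 2 * q) * (Y2 * T - (L + pll) * T) := by ring
      rw [e2, e1, hphl, hF]
      ring
    have h5 : 0 ≤ (e * (U * (1 - q) * (Y2 - lamU) + V * (L - q * Y2)) +
        (1 - 2 * q) * (Y2 - L - pll)) * T := by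
      rw [key]; exact mul_nonneg he.le hQ
    exact nonneg_of_mul_nonneg_left h5 hT
  have s6 : e * (U * (1 - q) * (Y - lamU) + V * (L - q * Y)) + (1 - 2 * q) * (Y - L - pl) =
      (e * (U * (1 - q) * (Y2 - lamU) + V * (L - q * Y2)) + (1 - 2 * q) * (Y2 - L - pll)) +
      (Y - Y1) * (e * (U * (1 - q) - q * V) + (1 - 2 * q)) +
      (pl - pll) * (e * (U * (1 - q) - q * V) * ((1 + e * b1) * phl) +
      (1 - 2 * q) * (e * (b1 * phl - lu / 2))) := by
    rw [hY1, hY2, hphl]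
    ring
  have s7 : 0 ≤ e * (U * (1 - q) * (Y - lamU) + V * (L - q * Y)) + (1 - 2 * q) * (Y - L - pl) := by
    rw [s6]; exact add_nonneg (add_nonneg s5 s3) s4
  linarith only [s1, s2, s7]

/-! ### bounds of `u`, `v`, `Y` -/

theorem u_ge (hB : M6B) {e q : ℝ} (h0 : 0 < e) (h1 : e ≤ 66 / 100) (hq0 : 0 < q) (hq1 : q ≤ 1 / 20)
    (hL : 2995 / 1000 ≤ -Real.log q) : e * UP conR e q (-Real.log q) ≤ uu e (1 - 2 * q) := by
  have e2 : Real.log (1 - (1 - 2 * q)) = Real.log 2 + Real.log q := by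
    rw [show 1 - (1 - 2 * q) = 2 * q by ring, Real.log_mul (by norm_num) (by linarith)]
  have hβ := beta_pos hB h0 h1
  have eY : YY e = e * yh e := by unfold YY yh; ring
  have er : wlo / sq e = e ^ 2 * rh e := by
    unfold sq rh; field_simp; ring
  unfold uu
  rw [eY, er, e2]
  set L := -Real.log q with hLdef
  have hl : Real.log q = -L := by rw [hLdef]; ring
  rw [hl]
  have t1 := log2_lo
  have t2 := log2_hi
  set τ := Real.log 2
  have hy := yh_ge hB h0 h1
  have hr := rh_ge hB h0 h1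
  have hy0 := yl_lo h0.le h1
  have hr0 := rl_nonneg h0.le h1
  have e3 : UP conR e q L = 2 * ylP conR e * (L - 0.6932 - 1 + 2 * q) + e * rlP conR e *
      ((L - 0.6932) ^ 2 - 2 * (L - 0.6932 - 1 + 2 * q)) := by
    simp only [UP, conR]; push_cast; ring
  rw [e3]
  have a1 : 2 * ylP conR e * (L - 0.6932 - 1 + 2 * q) ≤ 2 * yh e * (-(τ + -L) - (1 - 2 * q)) := by
    apply mul_le_mul _ _ (by linarith only [hL, hq0]) (by linarith only [hy, hy0])
    · linarith only [hy]
    · linarith only [t2]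
  have a2 : rlP conR e * ((L - 0.6932) ^ 2 - 2 * (L - 0.6932 - 1 + 2 * q)) ≤
      rh e * ((τ + -L) ^ 2 - 2 * (-(τ + -L) - (1 - 2 * q))) := by
    have k1 : 0 ≤ 0.6932 - τ := by linarith only [t2]
    have k2 : 0 ≤ 2 * L - τ - 0.6932 - 2 := by linarith only [hL, t2]
    have k3 := mul_nonneg k1 k2
    have k4 := sq_nonneg (L - 0.6932 - 1)
    apply mul_le_mul hr _ _ (by linarith only [hr, hr0])
    · linarith only [k3]
    · linarith only [k4, hq1]
  have a3 := mul_le_mul_of_nonneg_left a2 (sq_nonneg e)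
  have a4 := mul_le_mul_of_nonneg_left a1 h0.le
  linarith only [a3, a4]

theorem lu_le {q : ℝ} (hq0 : 0 < q) (hq1 : q ≤ 1 / 20) :
    q * (1 + q * (1 / 2 + 0.35 * q)) ≤ 1.03 * q ∧ q * (1 + q * (1 / 2 + 0.35 * q)) ≤ 0.0515 := by
  have h1 : q * (1 / 2 + 0.35 * q) ≤ 1 / 20 * (1 / 2 + 0.35 * (1 / 20)) :=
    mul_le_mul hq1 (by linarith) (by positivity) (by norm_num)
  have h2 : q * (1 + q * (1 / 2 + 0.35 * q)) ≤ q * 1.03 :=
    mul_le_mul_of_nonneg_left (by norm_num at h1 ⊢; linarith) hq0.le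
  constructor
  · linarith
  · linarith

theorem v_ge (hB : M6B) {e q : ℝ} (h0 : 0 < e) (h1 : e ≤ 66 / 100) (hq0 : 0 < q) (hq1 : q ≤ 1 / 20) :
    e * VP conR e q ≤ vv e (1 - 2 * q) := by
  have e1 : Real.log (1 + (1 - 2 * q)) = Real.log 2 + Real.log (1 - q) := by
    rw [show 1 + (1 - 2 * q) = 2 * (1 - q) by ring, Real.log_mul (by norm_num) (by linarith)]
  have hβ := beta_pos hB h0 h1
  have eY : YY e = e * yh e := by unfold YY yh; ring
  have er : whi / sq e = e * (e * (4 * whi / ((1 + e) * (Bb e + Real.log 2 * e)) ^ 2)) := by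
    unfold sq; field_simp; ring
  have hE := erp_le hB h0 h1
  have hE0 : 0 ≤ e * (4 * whi / ((1 + e) * (Bb e + Real.log 2 * e)) ^ 2) := by
    unfold whi; positivity
  unfold vv
  rw [eY, er, e1]
  set E := e * (4 * whi / ((1 + e) * (Bb e + Real.log 2 * e)) ^ 2)
  have hlo := lp_lo hq0 hq1
  have hhi := lp_hi hq0 hq1
  set l := -Real.log (1 - q) with hl
  have hl' : Real.log (1 - q) = -l := by rw [hl]; ring
  rw [hl']
  have t1 := log2_lo
  have t2 := log2_hi
  set τ := Real.log 2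
  have hy := yh_ge hB h0 h1
  have hy0 := yl_lo h0.le h1
  have e3 : VP conR e q = 2 * ylP conR e * (0.3068 - q) - 0.0782 * 0.1334 := by
    simp only [VP, conR]; push_cast; ring
  rw [e3]
  have a1 : 2 * ylP conR e * (0.3068 - q) ≤ 2 * yh e * ((1 - 2 * q) - (τ + -l)) := by
    apply mul_le_mul _ _ (by linarith only [hq1]) (by linarith only [hy, hy0])
    · linarith only [hy]
    · linarith only [hlo, t2, sq_nonneg q]
  have hl3 : l ≤ 1.03 * q := le_trans hhi (lu_le hq0 hq1).1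
  have a2 : 2 * ((1 - 2 * q) - (τ + -l)) - (τ + -l) ^ 2 ≤ 0.1334 := by
    have hl0 : 0 ≤ l := by linarith only [hlo, hq0, sq_nonneg q]
    have k1 : (0.6931471:ℝ) * 0.6931471 ≤ τ * τ := mul_le_mul t1.le t1.le (by norm_num) (by linarith only [t1])
    have k2 := mul_le_mul_of_nonneg_right t2.le hl0
    have k3 := sq_nonneg l
    linarith only [k1, k2, k3, hl3, hq0, t1, t2]
  have a3 : E * (2 * ((1 - 2 * q) - (τ + -l)) - (τ + -l) ^ 2) ≤ 0.0782 * 0.1334 := by
    calc E * (2 * ((1 - 2 * q) - (τ + -l)) - (τ + -l) ^ 2) ≤ E * 0.1334 :=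
          mul_le_mul_of_nonneg_left a2 hE0
      _ ≤ 0.0782 * 0.1334 := mul_le_mul_of_nonneg_right hE (by norm_num)
  have a4 := mul_le_mul_of_nonneg_left a1 h0.le
  have a5 := mul_le_mul_of_nonneg_left a3 h0.le
  linarith only [a4, a5]


/-! ### numeric lemmas with small contexts -/

theorem L_ge {q : ℝ} (hq0 : 0 < q) (hq1 : q ≤ 1 / 20) : 2995 / 1000 ≤ -Real.log q := by
  have h20 : Real.log q ≤ Real.log (1 / 20) := Real.log_le_log hq0 hq1
  have e20 : Real.log (1 / 20) = -Real.log 20 := by rw [one_div, Real.log_inv]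
  have h2 : (2995 / 1000 : ℝ) ≤ Real.log 20 := by
    rw [Real.le_log_iff_exp_le (by norm_num)]
    have e3 : (2995 / 1000 : ℝ) = 3 - 5 / 1000 := by norm_num
    have e4 : Real.exp 3 = Real.exp 1 ^ 3 := by rw [← Real.exp_nat_mul]; norm_num
    rw [e3, Real.exp_sub, e4]
    have h5 := Real.exp_one_lt_d9
    have h6 : (1 + 5 / 1000 : ℝ) ≤ Real.exp (5 / 1000) := by
      have := Real.add_one_le_exp (5 / 1000 : ℝ); linarith
    rw [div_le_iff₀ (Real.exp_pos _)]
    have h7 : Real.exp 1 ^ 3 ≤ 2.7182818286 ^ 3 := pow_le_pow_left₀ (Real.exp_pos 1).le h5.le 3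
    have h8 : (2.7182818286 : ℝ) ^ 3 ≤ 20 * (1 + 5 / 1000) := by norm_num
    linarith
  linarith

theorem pl_ge {q l : ℝ} (hq0 : 0 < q) (hq1 : q ≤ 1 / 20) (hlo : q + q ^ 2 / 2 ≤ l) :
    (1 - q) * (1 + q / 2) ≤ (1 - q) * l / q := by
  rw [le_div_iff₀ hq0]
  have := mul_le_mul_of_nonneg_left hlo (by linarith : 0 ≤ 1 - q)
  linarith

theorem pl_ge' {q l : ℝ} (hq0 : 0 < q) (hq1 : q ≤ 1 / 20) (hlo : q + q ^ 2 / 2 ≤ l) :
    0.9 ≤ (1 - q) * l / q := by
  refine le_trans ?_ (pl_ge hq0 hq1 hlo)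
  nlinarith only [hq0, hq1]

theorem E2_lo {e L : ℝ} (h0 : 0 < e) (h1 : e ≤ 66 / 100) (hL : 2995 / 1000 ≤ L) :
    e ≤ 1 - Real.exp (-(e * L)) := by
  have hL0 : 0 < L := by linarith
  have hz : 0 < e * L := by positivity
  have h3 : Real.exp (-(e * L)) ≤ 1 / (1 + e * L) := by
    rw [Real.exp_neg, one_div]
    apply inv_anti₀ (by positivity)
    have := Real.add_one_le_exp (e * L); linarith
  have h4 : 1 / (1 + e * L) ≤ 1 - e := by
    rw [div_le_iff₀ (by positivity)]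
    have h5 : e * L * (1 - e) ≥ e * L * (34 / 100) := mul_le_mul_of_nonneg_left (by linarith) hz.le
    have h6 : e * (2995 / 1000) ≤ e * L := mul_le_mul_of_nonneg_left hL h0.le
    linarith only [h5, h6, h0]
  linarith only [h3, h4]

theorem T_pos {z : ℝ} (h : 0 < z) : 0 < Tt conR z := by
  simp only [Tt, conR]; push_cast; norm_num; positivity

theorem F_pos {z : ℝ} (h : 0 < z) : 0 < Ft conR z := by
  simp only [Ft, conR]; push_cast; norm_num; positivity

theorem T_sub_F (e L : ℝ) : Tt conR (e * L) - Ft conR (e * L) = e * L * Gt conR (e * L) := by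
  simp only [Tt, Ft, Gt, conR]; push_cast; ring

theorem UP_lo {e q L : ℝ} (h0 : 0 < e) (hy0 : 1 / 4 ≤ ylP conR e) (hr0 : 0 ≤ rlP conR e)
    (hq0 : 0 < q) (hq1 : q ≤ 1 / 20) (hL : 2995 / 1000 ≤ L) :
    2.6 * ylP conR e ≤ UP conR e q L := by
  have eU : UP conR e q L = 2 * ylP conR e * (L - 0.6932 - 1 + 2 * q) + e * rlP conR e *
      ((L - 0.6932) ^ 2 - 2 * (L - 0.6932 - 1 + 2 * q)) := by
    simp only [UP, conR]; push_cast; ring
  rw [eU]
  generalize ylP conR e = y at *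
  generalize rlP conR e = r at *
  have h5 : 0 ≤ e * r * ((L - 0.6932) ^ 2 - 2 * (L - 0.6932 - 1 + 2 * q)) := by
    apply mul_nonneg (by positivity)
    linarith only [sq_nonneg (L - 0.6932 - 1), hq1]
  have h6 : 2 * y * 1.3 ≤ 2 * y * (L - 0.6932 - 1 + 2 * q) :=
    mul_le_mul_of_nonneg_left (by linarith) (by linarith)
  linarith

theorem VP_hi {e q : ℝ} (hy0 : 1 / 4 ≤ ylP conR e) (hq0 : 0 < q) :
    VP conR e q ≤ 0.62 * ylP conR e := by
  have eV : VP conR e q = 2 * ylP conR e * (0.3068 - q) - 0.0782 * 0.1334 := by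
    simp only [VP, conR]; push_cast; ring
  rw [eV]
  generalize ylP conR e = y at *
  have h6 : 2 * y * (0.3068 - q) ≤ 2 * y * 0.3068 :=
    mul_le_mul_of_nonneg_left (by linarith) (by linarith)
  linarith

theorem UV_nonneg {q U V y : ℝ} (hy0 : 1 / 4 ≤ y) (hq0 : 0 < q) (hq1 : q ≤ 1 / 20)
    (hU : 2.6 * y ≤ U) (hV : V ≤ 0.62 * y) : 0 ≤ U * (1 - q) - q * V := by
  have h5 : 2.6 * y * (1 - q) ≤ U * (1 - q) := mul_le_mul_of_nonneg_right hU (by linarith)
  have h6 : q * V ≤ q * (0.62 * y) := mul_le_mul_of_nonneg_left hV hq0.le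
  have h7 : y * q ≤ y * (1 / 20) := mul_le_mul_of_nonneg_left hq1 (by linarith)
  linarith

theorem QQ_eq (e q L : ℝ) : QQ conR e q L = UP conR e q L * (1 - q) *
      ((1 + e * (0.3465 + 0.0398 * e)) * ((1 - q) * (1 + q / 2) *
          (1 - e * (q * (1 + q * (1 / 2 + 0.35 * q))) / 2) * Tt conR (e * L) + L * Ft conR (e * L)) -
        (1 + q * (1 / 2 + 0.35 * q)) * Tt conR (e * L)) +
      VP conR e q * (L * Tt conR (e * L) - q * ((1 + e * (0.3465 + 0.0398 * e)) * ((1 - q) *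
        (1 + q / 2) * (1 - e * (q * (1 + q * (1 / 2 + 0.35 * q))) / 2) * Tt conR (e * L) +
          L * Ft conR (e * L)))) +
      (1 - 2 * q) * ((1 - q) * (1 + q / 2) * ((0.3465 + 0.0398 * e) *
        (1 - e * (q * (1 + q * (1 / 2 + 0.35 * q))) / 2) - (q * (1 + q * (1 / 2 + 0.35 * q))) / 2) *
          Tt conR (e * L) + L * (0.3465 + 0.0398 * e) * Ft conR (e * L) - L * L * Gt conR (e * L)) := by
  have c1 : conR 1 0 = 1 := by simp [conR]
  have c2 : conR 2 0 = 2 := by simp [conR]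
  have c3 : conR 5 1 = 1 / 2 := by simp only [conR]; norm_num
  have c4 : conR 35 2 = 0.35 := by simp only [conR]; norm_num
  have c5 : conR 3465 4 = 0.3465 := by simp only [conR]; norm_num
  have c6 : conR 398 4 = 0.0398 := by simp only [conR]; norm_num
  simp only [QQ, QP0, YP, phlP, pllP, lamP, b1P, c1, c2, c3, c4, c5, c6]
  ring

/-- the estimates for `Y`, with all functions abstract -/
theorem Y_bounds {e q L l β E1 E2 T F G phl b1 lu : ℝ} (h0 : 0 < e) (hq0 : 0 < q)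
    (hq1 : q ≤ 1 / 20) (hL : 2995 / 1000 ≤ L) (hl0 : 0 < l) (hlu : l ≤ lu) (hlu3 : l ≤ 1.03 * q)
    (hphl : phl = 1 - e * lu / 2) (hphl0 : 0.9 ≤ phl) (hpl : 0.9 ≤ (1 - q) * l / q)
    (hβ : 1 + e * b1 ≤ β) (hβ1 : 1 ≤ β) (hβ2 : β ≤ 1.26)
    (hE1 : e * l - (e * l) ^ 2 / 2 ≤ 1 - E1) (hE1' : 1 - E1 ≤ e * l)
    (hE2 : e * L * F / T ≤ 1 - E2) (hE2' : 1 - E2 ≤ e * L) (hE2l : e ≤ 1 - E2)
    (hT : 0 < T) (hF : 0 < F) (hE10 : 0 ≤ 1 - E1)
    (hY : G = β / e * ((1 - q) * (1 - E1) + q * (1 - E2))) :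
    (1 + e * b1) * ((1 - q) * l / q * phl + L * F / T) ≤ G / q ∧ l / q ≤ G / q ∧
      q * (G / q) ≤ L := by
  have hq20 : 0 < 1 - q := by linarith
  have hYe : G / q = β / e * ((1 - q) * (1 - E1) / q + (1 - E2)) := by
    rw [hY]; field_simp
  have hplpos : 0 < (1 - q) * l / q := by linarith
  have hX1 : (1 - q) * l / q * phl * e ≤ (1 - q) * (1 - E1) / q := by
    have h5 : (1 - q) * (e * l - (e * l) ^ 2 / 2) / q ≤ (1 - q) * (1 - E1) / q := by
      apply div_le_div_of_nonneg_right _ hq0.le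
      apply mul_le_mul_of_nonneg_left hE1 hq20.le
    have h6 : (1 - q) * (e * l - (e * l) ^ 2 / 2) / q = (1 - q) * l / q * (1 - e * l / 2) * e := by
      field_simp
    rw [h6] at h5
    refine le_trans ?_ h5
    apply mul_le_mul_of_nonneg_right _ h0.le
    apply mul_le_mul_of_nonneg_left _ hplpos.le
    rw [hphl]
    have := mul_le_mul_of_nonneg_left hlu h0.le
    linarith
  have hβe : 0 ≤ β / e := by positivity
  refine ⟨?_, ?_, ?_⟩
  · rw [hYe]
    have h5 : ((1 - q) * l / q * phl + L * F / T) * e ≤ (1 - q) * (1 - E1) / q + (1 - E2) := by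
      have e5 : ((1 - q) * l / q * phl + L * F / T) * e =
        (1 - q) * l / q * phl * e + e * L * F / T := by ring
      rw [e5]; linarith
    have h6 : 0 ≤ (1 - q) * l / q * phl + L * F / T := by
      have : 0 < L := by linarith
      have h7 : 0 < phl := by linarith
      positivity
    calc (1 + e * b1) * ((1 - q) * l / q * phl + L * F / T) ≤
          β * ((1 - q) * l / q * phl + L * F / T) := mul_le_mul_of_nonneg_right hβ h6
      _ = β / e * (((1 - q) * l / q * phl + L * F / T) * e) := by field_simp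
      _ ≤ β / e * ((1 - q) * (1 - E1) / q + (1 - E2)) := mul_le_mul_of_nonneg_left h5 hβe
  · have hlam103 : l / q ≤ 1.03 := by rw [div_le_iff₀ hq0]; linarith
    refine le_trans hlam103 ?_
    rw [hYe]
    have h5 : (1 - q) * l / q * phl * e + e ≤ (1 - q) * (1 - E1) / q + (1 - E2) := by linarith
    have h6 : 0.9 * 0.9 ≤ (1 - q) * l / q * phl := mul_le_mul hpl hphl0 (by norm_num) hplpos.le
    calc (1.03 : ℝ) ≤ 1 * ((1 - q) * l / q * phl + 1) := by linarith
      _ ≤ β * ((1 - q) * l / q * phl + 1) := mul_le_mul_of_nonneg_right hβ1 (by linarith)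
      _ = β / e * ((1 - q) * l / q * phl * e + e) := by field_simp
      _ ≤ β / e * ((1 - q) * (1 - E1) / q + (1 - E2)) := mul_le_mul_of_nonneg_left h5 hβe
  · have e5 : q * (G / q) = G := by field_simp
    rw [e5, hY]
    have hL0 : 0 < L := by linarith
    have h5 : (1 - q) * (1 - E1) + q * (1 - E2) ≤ e * (l + q * L) := by
      have h6 : (1 - q) * (1 - E1) ≤ 1 * (e * l) := mul_le_mul (by linarith) hE1' hE10 (by norm_num)
      have h7 : q * (1 - E2) ≤ q * (e * L) := mul_le_mul_of_nonneg_left hE2' hq0.le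
      linarith
    have h9 : l + q * L ≤ 0.0515 + L / 20 := by
      have : q * L ≤ 1 / 20 * L := mul_le_mul_of_nonneg_right hq1 hL0.le
      linarith
    calc β / e * ((1 - q) * (1 - E1) + q * (1 - E2)) ≤ β / e * (e * (l + q * L)) :=
          mul_le_mul_of_nonneg_left h5 hβe
      _ = β * (l + q * L) := by field_simp
      _ ≤ 1.26 * (0.0515 + L / 20) := mul_le_mul hβ2 h9 (by positivity) (by norm_num)
      _ ≤ L := by linarith

end R2

open R2 in
/-- MODULE M6R2 -/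
theorem m6r2 (hB : M6B) : M6R2 := by
  intro e t h0 h1 ht ht1
  obtain ⟨q, rfl⟩ : ∃ q, t = 1 - 2 * q := ⟨(1 - t) / 2, by ring⟩
  have hq0 : 0 < q := by linarith
  have hq1 : q ≤ 1 / 20 := by linarith
  apply ineqII_of e q hq0 (by linarith)
  have hL := L_ge hq0 hq1
  have hu := u_ge hB h0 h1 hq0 hq1 hL
  have hv := v_ge hB h0 h1 hq0 hq1
  have hlo := lp_lo hq0 hq1
  have hhi := lp_hi hq0 hq1
  have hY := tau_sub_Gam e q h0 hq0 (by linarith)
  have hβ := beta_lo hB h0 h1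
  have hβ' := beta_hi hB h0 h1
  have hβ1 := beta_pos hB h0 h1
  have hβ2 : Bb e + Real.log 2 * e ≤ 1.26 := by
    refine le_trans hβ' ?_
    have : e * (0.346574 + 0.040038 * e) ≤ 66 / 100 * (0.346574 + 0.040038 * (66 / 100)) :=
      mul_le_mul h1 (by linarith) (by positivity) (by norm_num)
    linarith
  generalize Real.log 2 - Gam e (1 - 2 * q) = G at *
  generalize uu e (1 - 2 * q) = u at *
  generalize vv e (1 - 2 * q) = v at *
  generalize -Real.log q = L at *
  generalize -Real.log (1 - q) = l at *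
  generalize Bb e + Real.log 2 * e = β at *
  have hl0 : 0 < l := by have := sq_nonneg q; linarith only [this, hlo, hq0]
  have hL0 : 0 < L := by linarith only [hL]
  obtain ⟨hlu3, hlu5⟩ := lu_le hq0 hq1
  have hz : 0 < e * L := by positivity
  have hzl : 0 < e * l := by positivity
  have hE1 : e * l - (e * l) ^ 2 / 2 ≤ 1 - Real.exp (-(e * l)) := by
    have := exp_neg_hi hzl.le
    linarith only [this]
  have hE1' : 1 - Real.exp (-(e * l)) ≤ e * l := by
    have := Real.add_one_le_exp (-(e * l)); linarith only [this]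
  have hE10 : 0 ≤ 1 - Real.exp (-(e * l)) := by
    have := Real.exp_le_one_iff.mpr (by linarith only [hzl] : -(e * l) ≤ 0)
    linarith only [this]
  have hE2 := one_sub_exp_ge hz.le
  have hE2' : 1 - Real.exp (-(e * L)) ≤ e * L := by
    have := Real.add_one_le_exp (-(e * L)); linarith only [this]
  have hE2l := E2_lo h0 h1 hL
  have hTpos := T_pos hz
  have hFpos := F_pos hz
  have hTF := T_sub_F e L
  have hpl9 := pl_ge' hq0 hq1 hlo
  have hplq := pl_ge hq0 hq1 hlo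
  have hlu0 : 0 ≤ q * (1 + q * (1 / 2 + 0.35 * q)) := by positivity
  have helu : e * (q * (1 + q * (1 / 2 + 0.35 * q))) ≤ 66 / 100 * 0.0515 :=
    mul_le_mul h1 hlu5 hlu0 (by norm_num)
  have hphl0 : 0.9 ≤ 1 - e * (q * (1 + q * (1 / 2 + 0.35 * q))) / 2 := by linarith only [helu]
  obtain ⟨hYlow, hYlam, hLq⟩ := Y_bounds h0 hq0 hq1 hL hl0 hhi (le_trans hhi hlu3) rfl hphl0 hpl9 hβ hβ1 hβ2
    hE1 hE1' hE2 hE2' hE2l hTpos hFpos hE10 hY
  have hlam : l / q ≤ 1 + q * (1 / 2 + 0.35 * q) := by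
    rw [div_le_iff₀ hq0]; linarith only [hhi]
  have hy0 := yl_lo h0.le h1
  have hr0 := rl_nonneg h0.le h1
  have hUlow := UP_lo h0 hy0 hr0 hq0 hq1 hL
  have hVup := VP_hi (q := q) hy0 hq0
  have hUV := UV_nonneg hy0 hq0 hq1 hUlow hVup
  have hQ := QQ_nonneg e q L h0.le h1 hq0.le hq1 hL
  rw [QQ_eq] at hQ
  have hb : 0 ≤ (0.3465 + 0.0398 * e) * (1 - e * (q * (1 + q * (1 / 2 + 0.35 * q))) / 2) -
      (q * (1 + q * (1 / 2 + 0.35 * q))) / 2 := by
    have : 0.3465 * 0.9 ≤ (0.3465 + 0.0398 * e) * (1 - e * (q * (1 + q * (1 / 2 + 0.35 * q))) / 2) :=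
      mul_le_mul (by linarith only [h0]) hphl0 (by norm_num) (by linarith only [h0])
    linarith only [this, hlu5]
  have hfin := assemble e q L (l / q) ((1 - q) * l / q) (G / q) u v (UP conR e q L) (VP conR e q)
    (Tt conR (e * L)) (Ft conR (e * L)) (Gt conR (e * L)) (0.3465 + 0.0398 * e)
    (1 + q * (1 / 2 + 0.35 * q)) ((1 - q) * (1 + q / 2))
    (1 - e * (q * (1 + q * (1 / 2 + 0.35 * q))) / 2) (q * (1 + q * (1 / 2 + 0.35 * q)))
    h0 hTpos hTF hu hv hYlam hLq hlam (by linarith only [hUlow, hy0]) (by linarith only [hq1])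
    (by linarith only [hq1]) hUV rfl
    (by linarith only [hphl0]) (by linarith only [h0]) hb hYlow hplq hQ
  have e6 : q * (G / q) = G := by field_simp
  rw [e6] at hfin
  exact hfin

end Pool.Agent.H58.Tal
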