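import Pool.Agent.H91.Tal.R2Def

/-!
One-variable polynomial inequalities used in module M6R2.
-/

set_option autoImplicit false
set_option linter.unusedSimpArgs false

namespace Pool.Agent.H91.PC

theorem eV_ev (E0 H : Int) (hH : 0 < H) (e : ℝ) : (eV E0 H).ev 0 ((100 * e - E0) / H) 0 = e := by
  have hH' : (0:ℝ) < H := by exact_mod_cast hH
  simp only [eV, QP.ev, ev3, ev2, ev1, lev]
  field_simp
  ring

/-- check of `f` on consecutive intervals with end points `a/100, b/100, …` -/
def chkBr (f : QP → QP) : Int → List Int → Bool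
  | _, [] => true
  | a, b :: l => decide (a < b) && ((f (eV a (b - a))).chk && chkBr f b l)

theorem chkBr_spec (f : QP → QP) (g : ℝ → ℝ)
    (hfg : ∀ (s y x : ℝ) (e : QP), (f e).ev s y x = g (e.ev s y x)) :
    ∀ (l : List Int) (a : Int), chkBr f a l = true → l ≠ [] →
      ∀ e : ℝ, (a : ℝ) / 100 ≤ e → e ≤ ((l.getLastD 0 : Int) : ℝ) / 100 → 0 ≤ g e
  | [], _, _, h => absurd rfl h
  | b :: l, a, h, _ => by
    intro e he0 he1
    simp only [chkBr, Bool.and_eq_true, decide_eq_true_eq] at h
    obtain ⟨hab, hc, hl⟩ := h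
    by_cases hb : e ≤ (b : ℝ) / 100
    · have hH : 0 < b - a := by omega
      have hH' : (0:ℝ) < ((b - a : Int) : ℝ) := by exact_mod_cast hH
      have e1 : ((b - a : Int) : ℝ) = b - a := by push_cast; ring
      have hy0 : 0 ≤ (100 * e - a) / ((b - a : Int) : ℝ) := by apply div_nonneg _ hH'.le; linarith
      have hy1 : (100 * e - a) / ((b - a : Int) : ℝ) ≤ 1 := by rw [div_le_one hH', e1]; linarith
      have h1 := QP.chk_spec hc (s := 0) (y := (100 * e - a) / ((b - a : Int) : ℝ)) (x := 0)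
        (le_refl _) hy0 hy1 (le_refl _) (by norm_num)
      rwa [hfg, eV_ev a (b - a) hH] at h1
    · cases l with
      | nil =>
        simp only [List.getLastD_cons, List.getLastD_nil] at he1
        exact absurd he1 hb
      | cons c l' =>
        apply chkBr_spec f g hfg (c :: l') b hl (by simp) e (by linarith [not_le.mp hb])
        simpa using he1

section Gen

variable {R : Type} [Add R] [Sub R] [Mul R] (con : Int → Nat → R)

def ggP (e : R) : R := con 1 0 - e * (con 105 2 - e * (con 59 2 - e * con 22 2))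
/-- `yl g (1+e) ≤ ac ((1+e) B - e)` -/
def polA (e : R) : R :=
  con 3267132 7 * ((con 1 0 + e) * (con 1 0 - e * (con 346574 6 - con 398 4 * e)) - e) -
    ylP con e * ggP con e * (con 1 0 + e)
/-- `rl ((1+e) β)² ≤ 4 wlo` -/
def polB (e : R) : R :=
  con 1048 4 - rlP con e * (((con 1 0 + e) * (con 1 0 + e * (con 346574 6 + con 40038 6 * e))) *
    ((con 1 0 + e) * (con 1 0 + e * (con 346574 6 + con 40038 6 * e))))
/-- `4 whi e ≤ .0782 ((1+e) β)²` -/
def polC (e : R) : R :=
  con 782 4 * (((con 1 0 + e) * (con 1 0 + e * b1P con e)) *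
    ((con 1 0 + e) * (con 1 0 + e * b1P con e))) - con 492 3 * e
/-- `yl ≥ 1/4` -/
def polD (e : R) : R := ylP con e - con 25 2
/-- `rl ≥ 0` -/
def polE (e : R) : R := rlP con e
/-- `g ≥ 1/2` -/
def polF (e : R) : R := ggP con e - con 5 1

end Gen

theorem chk_polA : chkBr (polA QP.con) 0 [4, 8, 14, 25, 40, 52, 58, 66] = true := by decide +kernel
theorem chk_polB : chkBr (polB QP.con) 0 [4, 11, 22, 38, 56, 66] = true := by decide +kernel
theorem chk_polC : chkBr (polC QP.con) 0 [27, 39, 45, 48, 51, 66] = true := by decide +kernel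
theorem chk_polD : chkBr (polD QP.con) 0 [66] = true := by decide +kernel
theorem chk_polE : chkBr (polE QP.con) 0 [30, 50, 66] = true := by decide +kernel
theorem chk_polF : chkBr (polF QP.con) 0 [20, 40, 50, 60, 64, 66] = true := by decide +kernel

theorem polA_nonneg {e : ℝ} (h0 : 0 ≤ e) (h1 : e ≤ 66 / 100) : 0 ≤ polA conR e :=
  chkBr_spec (polA QP.con) (polA conR) (fun s y x e => by
    simp only [polA, polB, polC, polD, polE, polF, ggP, b1P, rlP, ylP,
      QP.ev_add, QP.ev_sub, QP.ev_mul, QP.ev_con, conR]) _ _ chk_polA (by simp) e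
    (by simpa using h0) (by simpa using h1)
theorem polB_nonneg {e : ℝ} (h0 : 0 ≤ e) (h1 : e ≤ 66 / 100) : 0 ≤ polB conR e :=
  chkBr_spec (polB QP.con) (polB conR) (fun s y x e => by
    simp only [polA, polB, polC, polD, polE, polF, ggP, b1P, rlP, ylP,
      QP.ev_add, QP.ev_sub, QP.ev_mul, QP.ev_con, conR]) _ _ chk_polB (by simp) e
    (by simpa using h0) (by simpa using h1)
theorem polC_nonneg {e : ℝ} (h0 : 0 ≤ e) (h1 : e ≤ 66 / 100) : 0 ≤ polC conR e :=
  chkBr_spec (polC QP.con) (polC conR) (fun s y x e => by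
    simp only [polA, polB, polC, polD, polE, polF, ggP, b1P, rlP, ylP,
      QP.ev_add, QP.ev_sub, QP.ev_mul, QP.ev_con, conR]) _ _ chk_polC (by simp) e
    (by simpa using h0) (by simpa using h1)
theorem polD_nonneg {e : ℝ} (h0 : 0 ≤ e) (h1 : e ≤ 66 / 100) : 0 ≤ polD conR e :=
  chkBr_spec (polD QP.con) (polD conR) (fun s y x e => by
    simp only [polA, polB, polC, polD, polE, polF, ggP, b1P, rlP, ylP,
      QP.ev_add, QP.ev_sub, QP.ev_mul, QP.ev_con, conR]) _ _ chk_polD (by simp) e
    (by simpa using h0) (by simpa using h1)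
theorem polE_nonneg {e : ℝ} (h0 : 0 ≤ e) (h1 : e ≤ 66 / 100) : 0 ≤ polE conR e :=
  chkBr_spec (polE QP.con) (polE conR) (fun s y x e => by
    simp only [polA, polB, polC, polD, polE, polF, ggP, b1P, rlP, ylP,
      QP.ev_add, QP.ev_sub, QP.ev_mul, QP.ev_con, conR]) _ _ chk_polE (by simp) e
    (by simpa using h0) (by simpa using h1)
theorem polF_nonneg {e : ℝ} (h0 : 0 ≤ e) (h1 : e ≤ 66 / 100) : 0 ≤ polF conR e :=
  chkBr_spec (polF QP.con) (polF conR) (fun s y x e => by
    simp only [polA, polB, polC, polD, polE, polF, ggP, b1P, rlP, ylP,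
      QP.ev_add, QP.ev_sub, QP.ev_mul, QP.ev_con, conR]) _ _ chk_polF (by simp) e
    (by simpa using h0) (by simpa using h1)

end Pool.Agent.H91.PC
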