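import Mathlib

/-!
Dense polynomials with integer coefficients in three variables `s, y, x` (nested lists, outermost
variable `s`, innermost `x`), with a decimal denominator, and a decidable sufficient condition for
nonnegativity on `s ≥ 0`, `y, x ∈ [0,1]`.
-/

set_option autoImplicit false

namespace Pool.Agent.H91.PC

section Generic

variable {C : Type}

def ladd (add : C → C → C) : List C → List C → List C
  | [], q => q
  | a :: p, [] => a :: p
  | a :: p, b :: q => add a b :: ladd add p q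

def lmul (zero : C) (add mul : C → C → C) : List C → List C → List C
  | [], _ => []
  | a :: p, q => ladd add (q.map (mul a)) (zero :: lmul zero add mul p q)

/-- evaluation of a coefficient list at `x` -/
def lev (ev : C → ℝ) (x : ℝ) : List C → ℝ
  | [] => 0
  | a :: p => ev a + x * lev ev x p

theorem lev_ladd (add : C → C → C) (ev : C → ℝ) (h : ∀ a b, ev (add a b) = ev a + ev b) (x : ℝ) :
    ∀ p q : List C, lev ev x (ladd add p q) = lev ev x p + lev ev x q
  | [], q => by simp [ladd, lev]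
  | a :: p, [] => by simp [ladd, lev]
  | a :: p, b :: q => by
    simp only [ladd, lev, h, lev_ladd add ev h x p q]
    ring

theorem lev_map (mul : C → C → C) (ev : C → ℝ) (h : ∀ a b, ev (mul a b) = ev a * ev b) (x : ℝ)
    (a : C) : ∀ q : List C, lev ev x (q.map (mul a)) = ev a * lev ev x q
  | [] => by simp [lev]
  | b :: q => by
    simp only [List.map_cons, lev, h, lev_map mul ev h x a q]
    ring

theorem lev_lmul (zero : C) (add mul : C → C → C) (ev : C → ℝ) (h0 : ev zero = 0)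
    (ha : ∀ a b, ev (add a b) = ev a + ev b) (h : ∀ a b, ev (mul a b) = ev a * ev b) (x : ℝ) :
    ∀ p q : List C, lev ev x (lmul zero add mul p q) = lev ev x p * lev ev x q
  | [], q => by simp [lmul, lev]
  | a :: p, q => by
    simp only [lmul, lev_ladd add ev ha, lev_map mul ev h, lev, h0,
      lev_lmul zero add mul ev h0 ha h x p q]
    ring

end Generic

/-! level 1 -/
abbrev P1 := List Int
def add1 (p q : P1) : P1 := ladd Int.add p q
def mul1 (p q : P1) : P1 := lmul 0 Int.add Int.mul p q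
def ev1 (x : ℝ) (p : P1) : ℝ := lev (fun a : Int => (a : ℝ)) x p

theorem ev1_add (x : ℝ) (p q : P1) : ev1 x (add1 p q) = ev1 x p + ev1 x q :=
  lev_ladd _ _ (fun a b => by exact_mod_cast Int.cast_add (R := ℝ) a b) x p q

theorem ev1_mul (x : ℝ) (p q : P1) : ev1 x (mul1 p q) = ev1 x p * ev1 x q :=
  lev_lmul _ _ _ _ (by simp) (fun a b => by exact_mod_cast Int.cast_add (R := ℝ) a b)
    (fun a b => by exact_mod_cast Int.cast_mul (α := ℝ) a b) x p q

theorem ev1_nil (x : ℝ) : ev1 x [] = 0 := rfl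

/-! level 2 -/
abbrev P2 := List P1
def add2 (p q : P2) : P2 := ladd add1 p q
def mul2 (p q : P2) : P2 := lmul [] add1 mul1 p q
def ev2 (y x : ℝ) (p : P2) : ℝ := lev (ev1 x) y p

theorem ev2_add (y x : ℝ) (p q : P2) : ev2 y x (add2 p q) = ev2 y x p + ev2 y x q :=
  lev_ladd _ _ (ev1_add x) y p q

theorem ev2_mul (y x : ℝ) (p q : P2) : ev2 y x (mul2 p q) = ev2 y x p * ev2 y x q :=
  lev_lmul _ _ _ _ (ev1_nil x) (ev1_add x) (ev1_mul x) y p q

/-! level 3 -/
abbrev P3 := List P2
def add3 (p q : P3) : P3 := ladd add2 p q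
def mul3 (p q : P3) : P3 := lmul [] add2 mul2 p q
def ev3 (s y x : ℝ) (p : P3) : ℝ := lev (ev2 y x) s p

theorem ev3_add (s y x : ℝ) (p q : P3) : ev3 s y x (add3 p q) = ev3 s y x p + ev3 s y x q :=
  lev_ladd _ _ (ev2_add y x) s p q

theorem ev3_mul (s y x : ℝ) (p q : P3) : ev3 s y x (mul3 p q) = ev3 s y x p * ev3 s y x q :=
  lev_lmul [] add2 mul2 (ev2 y x) rfl (ev2_add y x) (ev2_mul y x) s p q

def sc3 (c : Int) (p : P3) : P3 := p.map (fun q => q.map (fun r => r.map (Int.mul c)))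

theorem lev_map' {C : Type} (f : C → C) (ev : C → ℝ) (c : ℝ) (h : ∀ a, ev (f a) = c * ev a) (x : ℝ) :
    ∀ q : List C, lev ev x (q.map f) = c * lev ev x q
  | [] => by simp [lev]
  | b :: q => by
    simp only [List.map_cons, lev, h, lev_map' f ev c h x q]
    ring

theorem ev3_sc (s y x : ℝ) (c : Int) (p : P3) : ev3 s y x (sc3 c p) = c * ev3 s y x p := by
  unfold ev3 sc3
  apply lev_map'
  intro a
  unfold ev2
  apply lev_map'
  intro b
  unfold ev1
  apply lev_map'
  intro d
  exact_mod_cast Int.cast_mul (α := ℝ) c d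

/-! decimal scaled polynomials -/
structure QP where
  p : P3
  k : Nat

namespace QP

noncomputable def ev (s y x : ℝ) (P : QP) : ℝ := ev3 s y x P.p / 10 ^ P.k

def add (P R : QP) : QP :=
  match Nat.ble P.k R.k with
  | true => ⟨add3 (sc3 (10 ^ (R.k - P.k) : Nat) P.p) R.p, R.k⟩
  | false => ⟨add3 P.p (sc3 (10 ^ (P.k - R.k) : Nat) R.p), P.k⟩
def mul (P R : QP) : QP := ⟨mul3 P.p R.p, P.k + R.k⟩
def neg (P : QP) : QP := ⟨sc3 (-1) P.p, P.k⟩
/-- the constant `z / 10^k` -/
def con (z : Int) (k : Nat) : QP := ⟨[[[z]]], k⟩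

instance : Add QP := ⟨add⟩
instance : Mul QP := ⟨mul⟩
instance : Neg QP := ⟨neg⟩
instance : Sub QP := ⟨fun P R => add P (neg R)⟩

theorem ev_add (s y x : ℝ) (P R : QP) : (P + R).ev s y x = P.ev s y x + R.ev s y x := by
  show (add P R).ev s y x = _
  unfold add
  split
  · rename_i h
    have h := Nat.le_of_ble_eq_true h
    simp only [ev, ev3_add, ev3_sc]
    have e : (10:ℝ) ^ R.k = 10 ^ (R.k - P.k) * 10 ^ P.k := by rw [← pow_add, Nat.sub_add_cancel h]
    rw [e]
    push_cast
    field_simp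
  · rename_i h
    have h : R.k ≤ P.k := by
      by_contra hc
      rw [Nat.ble_eq_true_of_le (by omega)] at h
      exact absurd h (by simp)
    simp only [ev, ev3_add, ev3_sc]
    have e : (10:ℝ) ^ P.k = 10 ^ (P.k - R.k) * 10 ^ R.k := by rw [← pow_add, Nat.sub_add_cancel h]
    rw [e]
    push_cast
    field_simp

theorem ev_mul (s y x : ℝ) (P R : QP) : (P * R).ev s y x = P.ev s y x * R.ev s y x := by
  show (mul P R).ev s y x = _
  simp only [mul, ev, ev3_mul, pow_add]
  field_simp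

theorem ev_neg (s y x : ℝ) (P : QP) : (-P).ev s y x = - P.ev s y x := by
  show (neg P).ev s y x = _
  simp only [neg, ev, ev3_sc]
  push_cast
  ring

theorem ev_sub (s y x : ℝ) (P R : QP) : (P - R).ev s y x = P.ev s y x - R.ev s y x := by
  have : (P - R) = P + (-R) := rfl
  rw [this, ev_add, ev_neg]; ring

theorem ev_con (s y x : ℝ) (z : Int) (k : Nat) : (con z k).ev s y x = z / 10 ^ k := by
  simp [con, ev, ev3, ev2, ev1, lev]

end QP

/-! the check -/

/-- `min 0 a` -/
def neg0 (a : Int) : Int := match a with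
  | Int.ofNat _ => 0
  | Int.negSucc n => Int.negSucc n

theorem neg0_le (a : Int) : neg0 a ≤ a := by
  cases a with
  | ofNat n => simp [neg0]
  | negSucc n => simp [neg0]

theorem neg0_nonpos (a : Int) : neg0 a ≤ 0 := by
  cases a with
  | ofNat n => simp [neg0]
  | negSucc n =>
    simp only [neg0]
    exact (Int.negSucc_lt_zero n).le

/-- lower bound of `∑ c_i x^i`, `x ∈ [0,1]`, minus its constant term `a` -/
def nb1 : P1 → Int
  | [] => 0
  | a :: p => Int.add (neg0 a) (nb1 p)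

def lb1 : P1 → Int
  | [] => 0
  | a :: p => Int.add a (nb1 p)

theorem nb1_spec (x : ℝ) (hx0 : 0 ≤ x) (hx1 : x ≤ 1) : ∀ p : P1, ((nb1 p : Int) : ℝ) ≤ ev1 x p ∧ nb1 p ≤ 0
  | [] => by simp [nb1, ev1, lev]
  | a :: p => by
    obtain ⟨h1, h2⟩ := nb1_spec x hx0 hx1 p
    have e : nb1 (a :: p) = neg0 a + nb1 p := rfl
    have h3 := neg0_le a
    have h4 := neg0_nonpos a
    refine ⟨?_, by rw [e]; omega⟩
    rw [e]
    have e2 : ev1 x (a :: p) = a + x * ev1 x p := rfl
    rw [e2]
    push_cast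
    have h5 : ((neg0 a : Int) : ℝ) ≤ a := by exact_mod_cast h3
    have h6 : ((nb1 p : Int) : ℝ) ≤ 0 := by exact_mod_cast h2
    have h7 : ((nb1 p : Int) : ℝ) ≤ x * ev1 x p := by
      calc ((nb1 p : Int) : ℝ) ≤ x * nb1 p := by nlinarith
        _ ≤ x * ev1 x p := mul_le_mul_of_nonneg_left h1 hx0
    linarith

theorem lb1_spec (x : ℝ) (hx0 : 0 ≤ x) (hx1 : x ≤ 1) (p : P1) : ((lb1 p : Int) : ℝ) ≤ ev1 x p := by
  cases p with
  | nil => simp [lb1, ev1, lev]
  | cons a p =>
    obtain ⟨h1, h2⟩ := nb1_spec x hx0 hx1 p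
    have e : lb1 (a :: p) = a + nb1 p := rfl
    have e2 : ev1 x (a :: p) = a + x * ev1 x p := rfl
    rw [e, e2]
    push_cast
    have h6 : ((nb1 p : Int) : ℝ) ≤ 0 := by exact_mod_cast h2
    have h7 : ((nb1 p : Int) : ℝ) ≤ x * ev1 x p := by
      calc ((nb1 p : Int) : ℝ) ≤ x * nb1 p := by nlinarith
        _ ≤ x * ev1 x p := mul_le_mul_of_nonneg_left h1 hx0
    linarith

def nb2 : P2 → Int
  | [] => 0
  | c :: p => Int.add (neg0 (lb1 c)) (nb2 p)

theorem nb2_spec (y x : ℝ) (hy0 : 0 ≤ y) (hy1 : y ≤ 1) (hx0 : 0 ≤ x) (hx1 : x ≤ 1) :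
    ∀ p : P2, ((nb2 p : Int) : ℝ) ≤ ev2 y x p ∧ nb2 p ≤ 0
  | [] => by simp [nb2, ev2, lev]
  | c :: p => by
    obtain ⟨h1, h2⟩ := nb2_spec y x hy0 hy1 hx0 hx1 p
    have e : nb2 (c :: p) = neg0 (lb1 c) + nb2 p := rfl
    have h3 := neg0_le (lb1 c)
    have h4 := neg0_nonpos (lb1 c)
    refine ⟨?_, by rw [e]; omega⟩
    rw [e]
    have e2 : ev2 y x (c :: p) = ev1 x c + y * ev2 y x p := rfl
    rw [e2]
    push_cast
    have h5 : ((neg0 (lb1 c) : Int) : ℝ) ≤ ev1 x c :=
      le_trans (by exact_mod_cast h3) (lb1_spec x hx0 hx1 c)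
    have h6 : ((nb2 p : Int) : ℝ) ≤ 0 := by exact_mod_cast h2
    have h7 : ((nb2 p : Int) : ℝ) ≤ y * ev2 y x p := by
      calc ((nb2 p : Int) : ℝ) ≤ y * nb2 p := by nlinarith
        _ ≤ y * ev2 y x p := mul_le_mul_of_nonneg_left h1 hy0
    linarith

/-- are all entries zero -/
def allz : P1 → Bool
  | [] => true
  | a :: p => match a with
    | Int.ofNat n => match Nat.beq n 0 with
      | true => allz p
      | false => false
    | Int.negSucc _ => false

theorem allz_spec (x : ℝ) : ∀ p : P1, allz p = true → ev1 x p = 0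
  | [], _ => rfl
  | a :: p, h => by
    have e2 : ev1 x (a :: p) = a + x * ev1 x p := rfl
    cases a with
    | ofNat n =>
      simp only [allz] at h
      split at h
      · rename_i hn
        have hn : n = 0 := Nat.eq_of_beq_eq_true hn
        rw [e2, allz_spec x p h, hn]; simp
      · exact absurd h (by simp)
    | negSucc n => simp [allz] at h

def nonneg (a : Int) : Bool := match a with
  | Int.ofNat _ => true
  | Int.negSucc _ => false

theorem nonneg_spec {a : Int} (h : nonneg a = true) : 0 ≤ a := by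
  cases a with
  | ofNat n => exact Int.natCast_nonneg n
  | negSucc n => simp [nonneg] at h

def chk2 : P2 → Bool
  | [] => true
  | c :: p => match allz c with
    | true => chk2 p
    | false => nonneg (Int.add (lb1 c) (nb2 p))

theorem chk2_spec (y x : ℝ) (hy0 : 0 ≤ y) (hy1 : y ≤ 1) (hx0 : 0 ≤ x) (hx1 : x ≤ 1) :
    ∀ p : P2, chk2 p = true → 0 ≤ ev2 y x p
  | [], _ => le_refl _
  | c :: p, h => by
    have e2 : ev2 y x (c :: p) = ev1 x c + y * ev2 y x p := rfl
    simp only [chk2] at h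
    split at h
    · rename_i hz
      rw [e2, allz_spec x c hz]
      have := chk2_spec y x hy0 hy1 hx0 hx1 p h
      positivity
    · have h0 := nonneg_spec h
      have h0' : (0:ℝ) ≤ ((lb1 c + nb2 p : Int) : ℝ) := by exact_mod_cast h0
      push_cast at h0'
      obtain ⟨h1, h2⟩ := nb2_spec y x hy0 hy1 hx0 hx1 p
      have h3 := lb1_spec x hx0 hx1 c
      have h6 : ((nb2 p : Int) : ℝ) ≤ 0 := by exact_mod_cast h2
      have h7 : ((nb2 p : Int) : ℝ) ≤ y * ev2 y x p := by
        calc ((nb2 p : Int) : ℝ) ≤ y * nb2 p := by nlinarith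
          _ ≤ y * ev2 y x p := mul_le_mul_of_nonneg_left h1 hy0
      rw [e2]
      linarith

def chk3 : P3 → Bool
  | [] => true
  | c :: p => match chk2 c with
    | true => chk3 p
    | false => false

theorem chk3_spec (s y x : ℝ) (hs : 0 ≤ s) (hy0 : 0 ≤ y) (hy1 : y ≤ 1) (hx0 : 0 ≤ x) (hx1 : x ≤ 1) :
    ∀ p : P3, chk3 p = true → 0 ≤ ev3 s y x p
  | [], _ => le_refl _
  | c :: p, h => by
    have e2 : ev3 s y x (c :: p) = ev2 y x c + s * ev3 s y x p := rfl
    simp only [chk3] at h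
    split at h
    · rename_i hc
      rw [e2]
      have h1 := chk2_spec y x hy0 hy1 hx0 hx1 c hc
      have h2 := chk3_spec s y x hs hy0 hy1 hx0 hx1 p h
      positivity
    · exact absurd h (by simp)

def QP.chk (P : QP) : Bool := chk3 P.p

theorem QP.chk_spec {P : QP} (h : P.chk = true) {s y x : ℝ} (hs : 0 ≤ s) (hy0 : 0 ≤ y) (hy1 : y ≤ 1)
    (hx0 : 0 ≤ x) (hx1 : x ≤ 1) : 0 ≤ P.ev s y x :=
  div_nonneg (chk3_spec s y x hs hy0 hy1 hx0 hx1 P.p h) (by positivity)

end Pool.Agent.H91.PC
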