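import Pool.Agent.H58.Tal.Defs6
import Pool.Agent.H91.Tal.OneVar

/-!
Module M6R2 of the Talagrand project: `IneqII e t` for `e ≤ 66/100`, `t ≥ 9/10`.
-/

set_option autoImplicit false

namespace Pool.Agent.H58.Tal

open Pool.Agent.H91.PC

namespace R2

theorem log2_lo : (0.6931471 : ℝ) < Real.log 2 := by have := Real.log_two_gt_d9; linarith
theorem log2_hi : Real.log 2 < (0.6931472 : ℝ) := by have := Real.log_two_lt_d9; linarith

/-! ### bounds for `B` and the constants -/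

theorem Bb_lo (hB : M6B) {e : ℝ} (h0 : 0 < e) (h1 : e ≤ 66 / 100) :
    1 - e * (0.346574 - 0.0398 * e) ≤ Bb e := by
  have h := (hB e h0 (by linarith)).1
  have t1 := log2_lo
  have t2 := log2_hi
  set τ := Real.log 2
  have hτ2 : (0.48 : ℝ) ≤ τ ^ 2 := by nlinarith
  have hτ2' : τ ^ 2 ≤ 0.481 := by nlinarith
  have hτ4 : τ ^ 4 ≤ 0.24 := by
    have : τ ^ 4 = τ ^ 2 * τ ^ 2 := by ring
    rw [this]; nlinarith
  have he2 : e ^ 2 ≤ 0.4356 := by nlinarith
  have he4 : (τ * e) ^ 4 / 720 ≤ 0.00015 * e ^ 2 := by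
    have e1 : (τ * e) ^ 4 / 720 = τ ^ 4 * e ^ 2 / 720 * e ^ 2 := by ring
    rw [e1]
    apply mul_le_mul_of_nonneg_right _ (sq_nonneg e)
    have : τ ^ 4 * e ^ 2 ≤ 0.24 * 0.4356 := by
      apply mul_le_mul hτ4 he2 (sq_nonneg e) (by norm_num)
    linarith
  have he5 : (τ * e) ^ 2 / 12 ≥ 0.04 * e ^ 2 := by
    have e1 : (τ * e) ^ 2 / 12 = τ ^ 2 / 12 * e ^ 2 := by ring
    rw [e1]
    apply mul_le_mul_of_nonneg_right _ (sq_nonneg e)
    linarith
  nlinarith

/-- `β = B + e ln 2 ≥ 1 + e (.3465 + .0398 e)` -/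
theorem beta_lo (hB : M6B) {e : ℝ} (h0 : 0 < e) (h1 : e ≤ 66 / 100) :
    1 + e * (0.3465 + 0.0398 * e) ≤ Bb e + Real.log 2 * e := by
  have h := Bb_lo hB h0 h1
  have t1 := log2_lo
  nlinarith

/-- `β ≤ 1 + e (.346574 + .040038 e)` -/
theorem beta_hi (hB : M6B) {e : ℝ} (h0 : 0 < e) (h1 : e ≤ 66 / 100) :
    Bb e + Real.log 2 * e ≤ 1 + e * (0.346574 + 0.040038 * e) := by
  have h := (hB e h0 (by linarith)).2
  have t1 := log2_lo
  have t2 := log2_hi
  set τ := Real.log 2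
  have hτ2 : τ ^ 2 ≤ 0.480456 := by nlinarith
  have hτ0 : (0:ℝ) ≤ τ ^ 2 := sq_nonneg τ
  have he2 : e ^ 2 ≤ 0.4356 := by nlinarith
  have hye : (τ * e) ^ 2 ≤ 0.25 := by
    have : (τ * e) ^ 2 = τ ^ 2 * e ^ 2 := by ring
    rw [this]
    calc τ ^ 2 * e ^ 2 ≤ 0.480456 * 0.4356 := mul_le_mul hτ2 he2 (sq_nonneg e) (by norm_num)
      _ ≤ 0.25 := by norm_num
  have h6 : (τ * e) ^ 6 / 30240 ≤ (τ * e) ^ 4 / 720 := by
    have e1 : (τ * e) ^ 6 = (τ * e) ^ 4 * (τ * e) ^ 2 := by ring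
    rw [e1]
    have : (0:ℝ) ≤ (τ * e) ^ 4 := by positivity
    nlinarith
  have h2 : (τ * e) ^ 2 / 12 ≤ 0.040038 * e ^ 2 := by
    have e1 : (τ * e) ^ 2 / 12 = τ ^ 2 / 12 * e ^ 2 := by ring
    rw [e1]
    apply mul_le_mul_of_nonneg_right _ (sq_nonneg e)
    linarith
  nlinarith

theorem ac_lo : (0.3267132 : ℝ) ≤ ac := by
  have := log2_hi
  have := Real.log_two_lt_d9
  unfold ac; linarith

theorem gg_eq (e : ℝ) : gg e = ggP conR e := by
  simp only [ggP, conR, gg]; push_cast; ring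

theorem gg_pos {e : ℝ} (h0 : 0 ≤ e) (h1 : e ≤ 66 / 100) : 0 < gg e := by
  have := polF_nonneg h0 h1
  have e1 : polF conR e = gg e - 1 / 2 := by
    rw [gg_eq]; simp only [polF, conR]; push_cast; ring
  rw [e1] at this; linarith

theorem yl_lo {e : ℝ} (h0 : 0 ≤ e) (h1 : e ≤ 66 / 100) : 1 / 4 ≤ ylP conR e := by
  have := polD_nonneg h0 h1
  have e1 : polD conR e = ylP conR e - 1 / 4 := by
    simp only [polD, conR]; push_cast; ring
  rw [e1] at this; linarith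

theorem rl_nonneg {e : ℝ} (h0 : 0 ≤ e) (h1 : e ≤ 66 / 100) : 0 ≤ rlP conR e := polE_nonneg h0 h1

theorem yh_ge (hB : M6B) {e : ℝ} (h0 : 0 < e) (h1 : e ≤ 66 / 100) : ylP conR e ≤ yh e := by
  have hA := polA_nonneg h0.le h1
  have hb := Bb_lo hB h0 h1
  have hg := gg_pos h0.le h1
  have ha := ac_lo
  unfold yh
  have e1 : ac / gg e * (Bb e - e / (1 + e)) = ac * ((1 + e) * Bb e - e) / (gg e * (1 + e)) := by
    have : (1 + e) ≠ 0 := by positivity
    field_simp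
  rw [e1, le_div_iff₀ (by positivity)]
  have h2 : 0.3267132 * ((1 + e) * (1 - e * (0.346574 - 0.0398 * e)) - e) ≤ ac * ((1 + e) * Bb e - e) := by
    have h3 : (1 + e) * (1 - e * (0.346574 - 0.0398 * e)) - e ≤ (1 + e) * Bb e - e := by
      have := mul_le_mul_of_nonneg_left hb (by positivity : (0:ℝ) ≤ 1 + e)
      linarith
    have h4 : 0 ≤ (1 + e) * (1 - e * (0.346574 - 0.0398 * e)) - e := by
      have he2 : e ^ 2 ≤ 0.4356 := by nlinarith
      have he3 : 0 ≤ e ^ 3 := by positivity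
      nlinarith
    exact mul_le_mul ha h3 h4 (by linarith)
  refine le_trans ?_ h2
  have e2 : polA conR e = 0.3267132 * ((1 + e) * (1 - e * (0.346574 - 0.0398 * e)) - e) -
      ylP conR e * (gg e * (1 + e)) := by
    rw [gg_eq]; simp only [polA, conR]; push_cast; ring
  rw [e2] at hA
  linarith

theorem beta_pos (hB : M6B) {e : ℝ} (h0 : 0 < e) (h1 : e ≤ 66 / 100) :
    1 ≤ Bb e + Real.log 2 * e := by
  have := beta_lo hB h0 h1
  nlinarith

theorem rh_ge (hB : M6B) {e : ℝ} (h0 : 0 < e) (h1 : e ≤ 66 / 100) : rlP conR e ≤ rh e := by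
  have hA := polB_nonneg h0.le h1
  have hb := beta_hi hB h0 h1
  have hb1 := beta_pos hB h0 h1
  have hr := rl_nonneg h0.le h1
  unfold rh
  rw [le_div_iff₀ (by positivity)]
  have h2 : ((1 + e) * (Bb e + Real.log 2 * e)) ^ 2 ≤ ((1 + e) * (1 + e * (0.346574 + 0.040038 * e))) ^ 2 := by
    apply pow_le_pow_left₀ (by positivity)
    apply mul_le_mul_of_nonneg_left hb (by positivity)
  have h3 := mul_le_mul_of_nonneg_left h2 hr
  refine le_trans h3 ?_
  have e2 : polB conR e = 0.1048 - rlP conR e * ((1 + e) * (1 + e * (0.346574 + 0.040038 * e))) ^ 2 := by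
    simp only [polB, conR]; push_cast; ring
  rw [e2] at hA
  unfold wlo
  linarith

/-- `e (rh + dr) ≤ .0782` -/
theorem erp_le (hB : M6B) {e : ℝ} (h0 : 0 < e) (h1 : e ≤ 66 / 100) :
    e * (4 * whi / ((1 + e) * (Bb e + Real.log 2 * e)) ^ 2) ≤ 0.0782 := by
  have hA := polC_nonneg h0.le h1
  have hb := beta_lo hB h0 h1
  have hb1 := beta_pos hB h0 h1
  have e1 : e * (4 * whi / ((1 + e) * (Bb e + Real.log 2 * e)) ^ 2) =
      (4 * whi * e) / ((1 + e) * (Bb e + Real.log 2 * e)) ^ 2 := by ring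
  rw [e1, div_le_iff₀ (by positivity)]
  have h2 : ((1 + e) * (1 + e * (0.3465 + 0.0398 * e))) ^ 2 ≤ ((1 + e) * (Bb e + Real.log 2 * e)) ^ 2 := by
    apply pow_le_pow_left₀ (by positivity)
    apply mul_le_mul_of_nonneg_left hb (by positivity)
  have e2 : polC conR e = 0.0782 * ((1 + e) * (1 + e * (0.3465 + 0.0398 * e))) ^ 2 - 0.492 * e := by
    simp only [polC, b1P, conR]; push_cast; ring
  rw [e2] at hA
  unfold whi
  nlinarith

/-! ### logarithm bounds, `lp = -log (1-q)` -/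

theorem lp_lo {q : ℝ} (h0 : 0 < q) (h1 : q ≤ 1 / 20) : q + q ^ 2 / 2 ≤ -Real.log (1 - q) := by
  have h := Real.abs_log_sub_add_sum_range_le (x := q) (by rw [abs_of_pos h0]; linarith) 4
  rw [abs_of_pos h0, abs_le] at h
  have h2 := h.2
  simp only [Finset.sum_range_succ, Finset.sum_range_zero] at h2
  norm_num at h2
  have h3 : q ^ 5 / (1 - q) ≤ 2 * q ^ 5 := by
    rw [div_le_iff₀ (by linarith)]
    have : 0 < q ^ 5 := by positivity
    nlinarith
  have h4 : 2 * q ^ 5 ≤ q ^ 3 / 3 := by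
    have e1 : 2 * q ^ 5 = 2 * q ^ 2 * q ^ 3 := by ring
    have : 0 < q ^ 3 := by positivity
    rw [e1]
    have : 2 * q ^ 2 ≤ 1 / 3 := by nlinarith
    nlinarith
  have h5 : 0 < q ^ 4 := by positivity
  have h6 := h.1
  simp only [Finset.sum_range_succ, Finset.sum_range_zero] at h6
  norm_num at h6
  linarith

theorem lp_hi {q : ℝ} (h0 : 0 < q) (h1 : q ≤ 1 / 20) :
    -Real.log (1 - q) ≤ q * (1 + q * (1 / 2 + 0.35 * q)) := by
  have h := Real.abs_log_sub_add_sum_range_le (x := q) (by rw [abs_of_pos h0]; linarith) 4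
  rw [abs_of_pos h0, abs_le] at h
  have h6 := h.1
  simp only [Finset.sum_range_succ, Finset.sum_range_zero] at h6
  norm_num at h6
  have h3 : q ^ 5 / (1 - q) ≤ 1.06 * q ^ 5 := by
    rw [div_le_iff₀ (by linarith)]
    have : 0 < q ^ 5 := by positivity
    nlinarith
  have h4 : q ^ 4 / 4 + 1.06 * q ^ 5 ≤ (0.35 - 1 / 3) * q ^ 3 := by
    have e1 : q ^ 4 / 4 + 1.06 * q ^ 5 = (q / 4 + 1.06 * q ^ 2) * q ^ 3 := by ring
    have : 0 < q ^ 3 := by positivity
    rw [e1]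
    apply mul_le_mul_of_nonneg_right _ this.le
    nlinarith
  nlinarith

/-! ### exponential bounds -/

theorem exp_neg_hi {x : ℝ} (h : 0 ≤ x) : Real.exp (-x) ≤ 1 - x + x ^ 2 / 2 := by
  have h1 : 1 + x + x ^ 2 / 2 ≤ Real.exp x := Real.quadratic_le_exp_of_nonneg h
  rw [Real.exp_neg, inv_le_comm₀ (Real.exp_pos x) (by nlinarith)]
  refine le_trans ?_ h1
  rw [inv_le_comm₀ (by nlinarith) (by positivity), inv_le_iff_one_le_mul₀ (by positivity)]
  nlinarith [sq_nonneg (x ^ 2)]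

theorem T_le_exp {z : ℝ} (h : 0 ≤ z) : Tt conR z / 24 ≤ Real.exp z := by
  have h1 := Real.sum_le_exp_of_nonneg h 5
  simp only [Finset.sum_range_succ, Finset.sum_range_zero, Nat.factorial] at h1
  simp only [Tt, conR]
  push_cast at h1 ⊢
  norm_num at h1 ⊢
  nlinarith

/-- `1 - e^{-z} ≥ z F/T` -/
theorem one_sub_exp_ge {z : ℝ} (h : 0 ≤ z) : z * Ft conR z / Tt conR z ≤ 1 - Real.exp (-z) := by
  have h1 := T_le_exp h
  have hT : 0 < Tt conR z := by
    simp only [Tt, conR]; push_cast; norm_num; positivity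
  have e1 : z * Ft conR z = Tt conR z - 24 := by
    simp only [Tt, Ft, conR]; push_cast; ring
  rw [e1, div_le_iff₀ hT, Real.exp_neg]
  have h2 : Tt conR z * (Real.exp z)⁻¹ ≤ 24 := by
    rw [← div_eq_mul_inv, div_le_iff₀ (Real.exp_pos z)]
    linarith
  nlinarith

end R2

end Pool.Agent.H58.Tal
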