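import Pool.Agent.H91.Tal.PolyCheck

/-!
Definitions for the polynomial inequality behind module M6R2.
-/

set_option autoImplicit false

namespace Pool.Agent.H91.PC

section Gen

variable {R : Type} [Add R] [Sub R] [Mul R] (con : Int → Nat → R)

def Tt (z : R) : R := con 24 0 + z * (con 24 0 + z * (con 12 0 + z * (con 4 0 + z)))
def Ft (z : R) : R := con 24 0 + z * (con 12 0 + z * (con 4 0 + z))
def Gt (z : R) : R := con 12 0 + z * (con 8 0 + z * (con 3 0 + z))

def ylP (e : R) : R := con 3265 4 + e * (con (-926) 4 + e * (con 107 4 + e * con (-525) 4))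
def rlP (e : R) : R :=
  con 1046 4 + e * (con (-2778) 4 + e * (con 4312 4 + e * (con (-4110) 4 + e * con 1763 4)))
def b1P (e : R) : R := con 3465 4 + e * con 398 4

def UP (e q L : R) : R :=
  con 2 0 * ylP con e * (L - con 6932 4 - con 1 0 + con 2 0 * q) +
    e * rlP con e * ((L - con 6932 4) * (L - con 6932 4) -
      con 2 0 * (L - con 6932 4 - con 1 0 + con 2 0 * q))
def VP (e q : R) : R := con 2 0 * ylP con e * (con 3068 4 - q) - con 1043188 8
def lamP (q : R) : R := con 1 0 + q * (con 5 1 + con 35 2 * q)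
def pllP (q : R) : R := (con 1 0 - q) * (con 1 0 + q * con 5 1)
def phlP (e q : R) : R := con 1 0 - e * (q * lamP con q) * con 5 1

def YP (e q L T Ph : R) : R :=
  (con 1 0 + e * b1P con e) * (pllP con q * phlP con e q * T + L * Ph)

def QP0 (e q L T Ph Ps : R) : R :=
  UP con e q L * (con 1 0 - q) * (YP con e q L T Ph - lamP con q * T) +
    VP con e q * (L * T - q * YP con e q L T Ph) +
    (con 1 0 - con 2 0 * q) *
      (pllP con q * (b1P con e * phlP con e q - q * lamP con q * con 5 1) * T +
        L * b1P con e * Ph - L * L * Ps)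

def QQ (e q L : R) : R := QP0 con e q L (Tt con (e * L)) (Ft con (e * L)) (Gt con (e * L))

end Gen

def eV (E0 H : Int) : QP := ⟨[[[E0], [H]]], 2⟩
def qV : QP := ⟨[[[0, 5]]], 2⟩
def LV : QP := ⟨[[[2995]], [[1]]], 3⟩

/-- the real constant `z/10^k` -/
noncomputable def conR (z : Int) (k : Nat) : ℝ := z / 10 ^ k

end Pool.Agent.H91.PC
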