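import Mathlib

/-!
# Reduction of Talagrand's inequality with constant 2 to a level one inequality

Points of the cube are finite subsets of `ι`; the face with free coordinates `s` through `x`
(`x` disjoint from `s`) consists of the sets `x ∪ t`, `t ⊆ s`.
-/

set_option autoImplicit false

open Finset

namespace Pool.Agent.H91.Tal

variable {ι : Type} [DecidableEq ι]

/-- mean of `f` over the face `{x ∪ t : t ⊆ s}` -/
noncomputable def M (f : Finset ι → ℝ) (s x : Finset ι) : ℝ :=
  (∑ t ∈ s.powerset, f (x ∪ t)) / 2 ^ s.card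

lemma M_empty (f : Finset ι → ℝ) (x : Finset ι) : M f ∅ x = f x := by
  simp [M]

lemma M_insert (f : Finset ι → ℝ) {i : ι} {s : Finset ι} (hi : i ∉ s) (x : Finset ι) :
    M f (insert i s) x = (M f s x + M f s (insert i x)) / 2 := by
  unfold M
  rw [Finset.sum_powerset_insert hi, Finset.card_insert_of_notMem hi]
  have h : ∀ t, x ∪ insert i t = insert i x ∪ t := by
    intro t; rw [Finset.union_insert, Finset.insert_union]
  simp only [h]
  field_simp
  ring

lemma M_erase (f : Finset ι → ℝ) {i : ι} {s : Finset ι} (hi : i ∈ s) (x : Finset ι) :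
    M f s x = (M f (s.erase i) x + M f (s.erase i) (insert i x)) / 2 := by
  conv_lhs => rw [← Finset.insert_erase hi]
  exact M_insert f (Finset.notMem_erase i s) x

lemma M_mono {f g : Finset ι → ℝ} (h : ∀ y, f y ≤ g y) (s x : Finset ι) : M f s x ≤ M g s x := by
  unfold M
  gcongr
  exact h _

lemma M_abs_le {f g : Finset ι → ℝ} (h : ∀ y, |f y| ≤ g y) (s x : Finset ι) :
    |M f s x| ≤ M g s x := by
  unfold M
  rw [abs_div, abs_of_pos (show (0:ℝ) < 2 ^ s.card by positivity)]
  gcongr
  exact (Finset.abs_sum_le_sum_abs _ _).trans (Finset.sum_le_sum fun t _ => h _)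

lemma M_nonneg {f : Finset ι → ℝ} (h : ∀ y, 0 ≤ f y) (s x : Finset ι) : 0 ≤ M f s x := by
  unfold M
  exact div_nonneg (Finset.sum_nonneg fun t _ => h _) (by positivity)

lemma M_const (c : ℝ) (s x : Finset ι) : M (fun _ => c) s x = c := by
  unfold M
  simp [Finset.card_powerset]

lemma M_le_one {f : Finset ι → ℝ} (h : ∀ y, f y ≤ 1) (s x : Finset ι) : M f s x ≤ 1 :=
  (M_mono h s x).trans_eq (M_const 1 s x)

/-- The functional `R`, average over the uniform random order of exposure of the squares of the
martingale of `f`; the first argument is the number of free coordinates. -/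
noncomputable def R : ℕ → (Finset ι → ℝ) → Finset ι → Finset ι → ℝ
  | 0, f, s, x => (M f s x) ^ 2
  | m + 1, f, s, x => ((M f s x) ^ 2 +
      ∑ i ∈ s, (R m f (s.erase i) x + R m f (s.erase i) (insert i x)) / 2) / (m + 2)

lemma R_mono {f g : Finset ι → ℝ} (h : ∀ y, |f y| ≤ g y) (m : ℕ) (s x : Finset ι) :
    R m f s x ≤ R m g s x := by
  have key : ∀ s x : Finset ι, (M f s x) ^ 2 ≤ (M g s x) ^ 2 := by
    intro s x
    have h1 := M_abs_le h s x
    rw [← sq_abs (M f s x)]
    exact pow_le_pow_left₀ (abs_nonneg _) h1 2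
  induction m generalizing s x with
  | zero => exact key s x
  | succ m ih =>
    simp only [R]
    have h2 : ∑ i ∈ s, (R m f (s.erase i) x + R m f (s.erase i) (insert i x)) / 2 ≤
        ∑ i ∈ s, (R m g (s.erase i) x + R m g (s.erase i) (insert i x)) / 2 := by
      refine Finset.sum_le_sum fun i _ => ?_
      have a1 := ih (s.erase i) x
      have a2 := ih (s.erase i) (insert i x)
      linarith
    have h3 := key s x
    have hm : (0:ℝ) < (m:ℝ) + 2 := by positivity
    exact div_le_div_of_nonneg_right (add_le_add h3 h2) hm.le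

/-- difference in direction `i` -/
def D (i : ι) (f : Finset ι → ℝ) (y : Finset ι) : ℝ := f (insert i y) - f y

lemma M_D (i : ι) (f : Finset ι → ℝ) (s x : Finset ι) :
    M (D i f) s x = M f s (insert i x) - M f s x := by
  unfold M D
  rw [← sub_div, ← Finset.sum_sub_distrib]
  have h : ∀ t, insert i (x ∪ t) = insert i x ∪ t := fun t => by
    rw [Finset.insert_union]
  simp only [h]

/-- variance on a face -/
noncomputable def V (f : Finset ι → ℝ) (s x : Finset ι) : ℝ :=
  M (fun y => (f y) ^ 2) s x - (M f s x) ^ 2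

lemma V_split (f : Finset ι → ℝ) {i : ι} {s : Finset ι} (hi : i ∈ s) (x : Finset ι) :
    V f s x = (V f (s.erase i) x + V f (s.erase i) (insert i x)) / 2 +
      (M (D i f) (s.erase i) x) ^ 2 / 4 := by
  unfold V
  rw [M_D, M_erase f hi x, M_erase (fun y => (f y) ^ 2) hi x]
  ring

lemma V_eq (f : Finset ι → ℝ) (m : ℕ) : ∀ (s x : Finset ι), s.card = m + 1 →
    V f s x = (∑ i ∈ s, R m (D i f) (s.erase i) x) / 4 := by
  induction m with
  | zero =>
    intro s x hs
    obtain ⟨i, rfl⟩ := Finset.card_eq_one.1 hs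
    rw [V_split f (Finset.mem_singleton_self i) x]
    have h0 : ∀ y, V f ∅ y = 0 := by
      intro y; simp [V, M_empty]
    simp [R, h0, M_empty]
  | succ m ih =>
    intro s x hs
    have hcard : ∀ j ∈ s, (s.erase j).card = m + 1 := fun j hj => by
      rw [Finset.card_erase_of_mem hj, hs]; rfl
    have hj : ∀ j ∈ s, V f s x = ((∑ i ∈ s.erase j, (R m (D i f) ((s.erase j).erase i) x +
        R m (D i f) ((s.erase j).erase i) (insert j x)) / 2) +
        (M (D j f) (s.erase j) x) ^ 2) / 4 := by
      intro j hj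
      rw [V_split f hj x, ih _ x (hcard j hj), ih _ (insert j x) (hcard j hj),
        ← Finset.sum_div, Finset.sum_add_distrib]
      ring
    have hsum : ((m:ℝ) + 2) * V f s x = ∑ j ∈ s, ((∑ i ∈ s.erase j,
        (R m (D i f) ((s.erase j).erase i) x +
        R m (D i f) ((s.erase j).erase i) (insert j x)) / 2) +
        (M (D j f) (s.erase j) x) ^ 2) / 4 := by
      rw [← Finset.sum_congr rfl hj, Finset.sum_const, hs, nsmul_eq_mul]
      push_cast
      ring
    have hswap : ∑ j ∈ s, ∑ i ∈ s.erase j, (R m (D i f) ((s.erase j).erase i) x +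
        R m (D i f) ((s.erase j).erase i) (insert j x)) / 2 =
        ∑ i ∈ s, ∑ j ∈ s.erase i, (R m (D i f) ((s.erase i).erase j) x +
        R m (D i f) ((s.erase i).erase j) (insert j x)) / 2 := by
      rw [Finset.sum_comm' (s' := fun i => s.erase i) (t' := s)]
      · refine Finset.sum_congr rfl fun i _ => Finset.sum_congr rfl fun j _ => ?_
        rw [Finset.erase_right_comm]
      · intro a b
        simp only [Finset.mem_erase, ne_eq]
        constructor
        · rintro ⟨h1, h2, h3⟩; exact ⟨⟨fun h => h2 h.symm, h1⟩, h3⟩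
        · rintro ⟨⟨h1, h2⟩, h3⟩; exact ⟨h2, fun h => h1 h.symm, h3⟩
    have hm : ((m:ℝ) + 2) ≠ 0 := by positivity
    have hfin : ((m:ℝ) + 2) * V f s x = ((m:ℝ) + 2) *
        ((∑ i ∈ s, R (m + 1) (D i f) (s.erase i) x) / 4) := by
      rw [hsum, ← Finset.sum_div, Finset.sum_add_distrib, hswap, ← Finset.sum_add_distrib]
      simp only [R]
      rw [← Finset.sum_div]
      field_simp
      refine Finset.sum_congr rfl fun i _ => ?_
      ring
    exact mul_left_cancel₀ hm hfin

/-- the bounding function `b (2 - b) / (1 + log₂ (1/b))` -/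
noncomputable def W (b : ℝ) : ℝ := b * (2 - b) / (1 + Real.logb 2 (1 / b))

lemma W_zero : W 0 = 0 := by simp [W]

lemma W_one : W 1 = 1 := by simp [W]; norm_num

/-- The level one inequality for indicator functions on faces. -/
def LevelOne (ι : Type) [DecidableEq ι] : Prop :=
  ∀ (h : Finset ι → ℝ), (∀ y, h y = 0 ∨ h y = 1) → ∀ s x : Finset ι, Disjoint s x →
    ∑ i ∈ s, ((W (M h (s.erase i) x) + W (M h (s.erase i) (insert i x))) / 2 - W (M h s x)) ≤
      W (M h s x) - (M h s x) ^ 2

lemma R_le (hL : LevelOne ι) (h : Finset ι → ℝ) (hh : ∀ y, h y = 0 ∨ h y = 1) (m : ℕ) :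
    ∀ (s x : Finset ι), s.card = m → Disjoint s x → R m h s x ≤ W (M h s x) := by
  induction m with
  | zero =>
    intro s x hs _
    obtain rfl := Finset.card_eq_zero.1 hs
    simp only [R, M_empty]
    rcases hh x with h0 | h0 <;> simp [h0, W_zero, W_one]
  | succ m ih =>
    intro s x hs hd
    simp only [R]
    rw [div_le_iff₀ (by positivity)]
    have h1 : ∑ i ∈ s, (R m h (s.erase i) x + R m h (s.erase i) (insert i x)) / 2 ≤
        ∑ i ∈ s, (W (M h (s.erase i) x) + W (M h (s.erase i) (insert i x))) / 2 := by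
      refine Finset.sum_le_sum fun i hi => ?_
      have hc : (s.erase i).card = m := by rw [Finset.card_erase_of_mem hi, hs]; rfl
      have hd1 : Disjoint (s.erase i) x := hd.mono_left (Finset.erase_subset i s)
      have hd2 : Disjoint (s.erase i) (insert i x) := by
        rw [Finset.disjoint_insert_right]
        exact ⟨Finset.notMem_erase i s, hd1⟩
      have a1 := ih (s.erase i) x hc hd1
      have a2 := ih (s.erase i) (insert i x) hc hd2
      linarith
    have h2 := hL h hh s x hd
    rw [Finset.sum_sub_distrib, Finset.sum_const, hs, nsmul_eq_mul] at h2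
    push_cast at h2
    nlinarith [h1, h2]

lemma W_le {b : ℝ} (h0 : 0 ≤ b) (h1 : b < 1) : W b ≤ 2 * (b / Real.logb 2 (1 / b)) := by
  rcases h0.eq_or_lt with rfl | hb
  · simp [W]
  · have hl : 0 < Real.logb 2 (1 / b) :=
      Real.logb_pos (by norm_num) (by rw [lt_div_iff₀ hb]; linarith)
    unfold W
    rw [← mul_div_assoc, div_le_div_iff₀ (by linarith) hl]
    nlinarith [mul_pos hb hl, mul_pos (mul_pos hb hb) hl]

/-- Talagrand's inequality with constant `2` on a face, from the level one inequality. -/
theorem talagrand_of_levelOne (hL : LevelOne ι) (f : Finset ι → ℝ) (hf : ∀ y, f y = 0 ∨ f y = 1)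
    (s x : Finset ι) (hd : Disjoint s x)
    (hβ : ∀ i ∈ s, M (fun y => |D i f y|) (s.erase i) x < 1) :
    2 * M f s x * (1 - M f s x) ≤
      ∑ i ∈ s, M (fun y => |D i f y|) (s.erase i) x /
        Real.logb 2 (1 / M (fun y => |D i f y|) (s.erase i) x) := by
  have hff : ∀ s x : Finset ι, M (fun y => (f y) ^ 2) s x = M f s x := by
    intro s x
    congr 1
    funext y
    rcases hf y with h | h <;> simp [h]
  have hV : V f s x = M f s x * (1 - M f s x) := by
    unfold V; rw [hff]; ring
  rcases Nat.eq_zero_or_pos s.card with h0 | hpos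
  · obtain rfl := Finset.card_eq_zero.1 h0
    simp only [Finset.sum_empty, M_empty]
    rcases hf x with h | h <;> simp [h]
  · obtain ⟨m, hm⟩ : ∃ m, s.card = m + 1 := ⟨s.card - 1, by omega⟩
    have h1 := V_eq f m s x hm
    have h2 : ∑ i ∈ s, R m (D i f) (s.erase i) x ≤
        ∑ i ∈ s, 2 * (M (fun y => |D i f y|) (s.erase i) x /
          Real.logb 2 (1 / M (fun y => |D i f y|) (s.erase i) x)) := by
      refine Finset.sum_le_sum fun i hi => ?_
      have hc : (s.erase i).card = m := by rw [Finset.card_erase_of_mem hi, hm]; rfl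
      have hd1 : Disjoint (s.erase i) x := hd.mono_left (Finset.erase_subset i s)
      have a1 : R m (D i f) (s.erase i) x ≤ R m (fun y => |D i f y|) (s.erase i) x :=
        R_mono (fun y => le_rfl) m _ _
      have a2 := R_le hL (fun y => |D i f y|) (fun y => by
        unfold D
        rcases hf (insert i y) with h | h <;> rcases hf y with h' | h' <;> simp [h, h'])
        m (s.erase i) x hc hd1
      exact a1.trans (a2.trans (W_le (M_nonneg (fun y => abs_nonneg _) _ _) (hβ i hi)))
    rw [← Finset.mul_sum] at h2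
    rw [hV] at h1
    nlinarith [h1, h2]

end Pool.Agent.H91.Tal
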